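import Mathlib
import Pool.Agent.H30.DL

set_option autoImplicit false

namespace Pool.Agent.Results.MP_7165d8_gt.Ultra

open Set Pool.Agent.H30

/-- Discretely Lindelof: the closure of every discrete subset is Lindelof. -/
def DiscLind (X : Type) [TopologicalSpace X] : Prop :=
  ∀ D : Set X, DiscreteTopology D → IsLindelof (closure D)

theorem result : ∃ (X : Type) (_ : TopologicalSpace X), T1Space X ∧
    DiscLind {p : X × X | p.1 ≠ p.2} ∧ ¬ LindelofSpace X :=
  ⟨DL.P, inferInstance, inferInstance, DL.dl2, DL.not_lind⟩

end Pool.Agent.Results.MP_7165d8_gt.Ultra
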